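import Pool.Agent.helper52.WP.SpecA

/-! wp:LIN (project wp:, MP_af9036_an), helper43. -/

set_option autoImplicit false

open Complex Metric Set Filter Topology MeasureTheory
open V3S (UF)
open WP

noncomputable section

namespace WPA

theorem LIN (hKO0 : V3.KO0_stmt) (hKO1 : V3.KO1_stmt) (hKO3 : V3.KO3_stmt) : LIN_stmt := by
  obtain ⟨C1, hC1, h1⟩ := hKO1
  obtain ⟨C3, hC3, h3⟩ := hKO3 (1 / 2) (by norm_num) (by norm_num)
  have hC1p : 0 < C1 := lt_of_lt_of_le one_pos hC1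
  have hC3p : 0 < C3 := lt_of_lt_of_le one_pos hC3
  have hsq : C3 ≤ C3 ^ 2 := by nlinarith
  refine ⟨2 * C3 ^ 2 + 4 * C1, by nlinarith, ?_⟩
  intro h w ρ hρ hd hi
  have hhalf : (1 - 1 / 2 : ℝ) = 1 / 2 := by norm_num
  refine ⟨?_, ?_, ?_, ?_⟩
  · intro x hx g hg
    have hsub : ball x (ρ / 2) ⊆ ball w ρ := by
      intro y hy
      rw [mem_ball] at hx hy ⊢
      have := dist_triangle y x w
      linarith
    obtain ⟨-, h3'⟩ := h3 h x (ρ / 2) (by linarith) (hd.mono hsub) (hi.mono hsub)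
    have hx2 : ∀ ξ ∈ closedBall x ‖g‖, ξ ∈ ball x (ρ / 2) := by
      intro ξ hξ
      rw [mem_closedBall] at hξ
      rw [mem_ball]
      linarith
    have hdiff : ∀ ξ ∈ closedBall x ‖g‖, DifferentiableAt ℂ h ξ := by
      intro ξ hξ
      exact (hd ξ (hsub (hx2 ξ hξ))).differentiableAt (isOpen_ball.mem_nhds (hsub (hx2 ξ hξ)))
    have hdd : ∀ ξ ∈ closedBall x ‖g‖, HasDerivWithinAt (fun z => h z - deriv h x * z) (deriv h ξ - deriv h x)
        (closedBall x ‖g‖) ξ := by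
      intro ξ hξ
      have e1 : HasDerivAt h (deriv h ξ) ξ := (hdiff ξ hξ).hasDerivAt
      have e2 : HasDerivAt (fun z : ℂ => deriv h x * z) (deriv h x) ξ := by
        simpa using (hasDerivAt_id ξ).const_mul (deriv h x)
      exact (e1.sub e2).hasDerivWithinAt
    have hb : ∀ ξ ∈ closedBall x ‖g‖, ‖deriv h ξ - deriv h x‖ ≤ C3 * (‖g‖ / (ρ / 2)) * ‖deriv h x‖ := by
      intro ξ hξ
      have hm : ξ ∈ ball x ((1 - 1 / 2) * (ρ / 2)) := by
        rw [mem_closedBall] at hξ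
        rw [mem_ball, hhalf]
        linarith
      obtain ⟨-, -, -, h4⟩ := h3' ξ hm
      refine h4.trans ?_
      rw [mem_closedBall, dist_eq_norm] at hξ
      have h5 : ‖ξ - x‖ / (ρ / 2) ≤ ‖g‖ / (ρ / 2) := div_le_div_of_nonneg_right hξ (by linarith)
      exact mul_le_mul_of_nonneg_right (mul_le_mul_of_nonneg_left h5 hC3p.le) (norm_nonneg _)
    have hx0 : x ∈ closedBall x ‖g‖ := mem_closedBall_self (norm_nonneg _)
    have hx1 : x + g ∈ closedBall x ‖g‖ := by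
      rw [mem_closedBall, dist_eq_norm]
      simp
    have hmv := (convex_closedBall x ‖g‖).norm_image_sub_le_of_norm_hasDerivWithin_le hdd hb hx0 hx1
    have e3 : h (x + g) - deriv h x * (x + g) - (h x - deriv h x * x) = h (x + g) - h x - deriv h x * g := by ring
    have e4 : x + g - x = g := by ring
    rw [e3, e4] at hmv
    refine hmv.trans ?_
    have e5 : C3 * (‖g‖ / (ρ / 2)) * ‖deriv h x‖ * ‖g‖ = 2 * C3 * (‖g‖ ^ 2 / ρ * ‖deriv h x‖) := by
      field_simp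
    have e6 : (2 * C3 ^ 2 + 4 * C1) * ‖g‖ ^ 2 / ρ * ‖deriv h x‖ = (2 * C3 ^ 2 + 4 * C1) * (‖g‖ ^ 2 / ρ * ‖deriv h x‖) := by
      ring
    rw [e5, e6]
    apply mul_le_mul_of_nonneg_right _ (by positivity)
    nlinarith
  · intro x hx b hb
    have hsub : ball x (ρ / 4) ⊆ ball w (ρ / 2) := by
      intro y hy
      rw [mem_ball] at hx hy ⊢
      have := dist_triangle y x w
      linarith
    have hsub2 : ball x (ρ / 4) ⊆ ball w ρ := by
      intro y hy
      have := hsub hy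
      rw [mem_ball] at this ⊢
      linarith
    have hk := h1 h x (ρ / 4) (by linarith) (hd.mono hsub2) (hi.mono hsub2)
    have hnb : b ∉ ball (h x) (ρ / 4 * ‖deriv h x‖ / C1) := by
      intro hbb
      obtain ⟨y, hy, hyb⟩ := hk hbb
      exact hb ⟨y, hsub hy, hyb⟩
    rw [mem_ball, not_lt, dist_comm, dist_eq_norm, div_le_iff₀ hC1p] at hnb
    have hn : 0 ≤ ‖h x - b‖ := norm_nonneg _
    have : ρ * ‖deriv h x‖ ≤ 4 * C1 * ‖h x - b‖ := by nlinarith
    refine this.trans ?_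
    apply mul_le_mul_of_nonneg_right _ hn
    nlinarith [sq_nonneg C3]
  · intro x hx
    exact hKO0 h (ball w ρ) isOpen_ball hd hi x hx
  · intro x hx x' hx'
    obtain ⟨-, h3'⟩ := h3 h w ρ hρ hd hi
    have hm : x ∈ ball w ((1 - 1 / 2) * ρ) := by
      rw [mem_ball] at hx ⊢
      rw [hhalf]
      linarith
    have hm' : x' ∈ ball w ((1 - 1 / 2) * ρ) := by
      rw [mem_ball] at hx' ⊢
      rw [hhalf]
      linarith
    obtain ⟨a1, -, -, -⟩ := h3' x hm
    obtain ⟨-, a2, -, -⟩ := h3' x' hm'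
    have hn : 0 ≤ ‖deriv h x'‖ := norm_nonneg _
    calc ‖deriv h x‖ ≤ C3 * ‖deriv h w‖ := a1
      _ ≤ C3 * (C3 * ‖deriv h x'‖) := mul_le_mul_of_nonneg_left a2 hC3p.le
      _ = C3 ^ 2 * ‖deriv h x'‖ := by ring
      _ ≤ (2 * C3 ^ 2 + 4 * C1) * ‖deriv h x'‖ := by
        apply mul_le_mul_of_nonneg_right _ hn
        nlinarith [sq_nonneg C3]

end WPA
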