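import Pool.Agent.helper52.WP.SpecT

/-! wp:TAU (project wp:, MP_af9036_an), helper43. -/

set_option autoImplicit false

open Complex Metric Set Filter Topology MeasureTheory
open V3S (UF)
open WP

noncomputable section

namespace WPT

theorem TAU : TAU_stmt := by
  intro κ M ρ hκ hM hρ
  refine ⟨3 / ρ * (1 + M * ρ / κ) + M / κ, by positivity, ?_⟩
  intro B Ψ x₀ e he heρ hB hΨ hΨe x hx
  have hx' : dist x x₀ < ρ := hx
  have hsub : closedBall x ρ ⊆ ball x₀ (2 * ρ) := by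
    intro y hy
    rw [mem_closedBall] at hy
    rw [mem_ball]
    have := dist_triangle y x x₀
    linarith
  have hx2 : x ∈ ball x₀ (2 * ρ) := hsub (mem_closedBall_self hρ.le)
  have hx3 : x ∈ ball x₀ (3 * ρ) := by
    rw [mem_ball]
    linarith
  have hΨ3 : Ψ x ∈ ball x₀ (3 * ρ) := by
    rw [mem_ball]
    have h1 : dist (Ψ x) x ≤ e := by
      rw [dist_eq_norm]
      exact hΨe x hx2
    have := dist_triangle (Ψ x) x x₀
    linarith
  have hd : DifferentiableOn ℂ (fun z => Ψ z - z) (ball x₀ (2 * ρ)) := hΨ.sub differentiableOn_id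
  have hdc : DiffContOnCl ℂ (fun z => Ψ z - z) (ball x ρ) := by
    apply DifferentiableOn.diffContOnCl
    rw [closure_ball x hρ.ne']
    exact hd.mono hsub
  have hder := norm_deriv_le_of_forall_mem_sphere_norm_le hρ hdc
    (fun z hz => hΨe z (hsub (sphere_subset_closedBall hz)))
  have hda : DifferentiableAt ℂ Ψ x := hΨ.differentiableAt (isOpen_ball.mem_nhds hx2)
  have he' : deriv (fun z => Ψ z - z) x = deriv Ψ x - 1 := by
    rw [deriv_fun_sub hda differentiableAt_fun_id]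
    simp
  rw [he'] at hder
  have he1 : e / ρ ≤ 1 := by
    rw [div_le_one hρ]
    exact heρ
  have h2 : ‖deriv Ψ x + 1‖ ≤ 3 := by
    have h3 : deriv Ψ x + 1 = (deriv Ψ x - 1) + 2 := by ring
    rw [h3]
    have h4 : ‖(2 : ℂ)‖ = 2 := by norm_num
    have := norm_add_le (deriv Ψ x - 1) 2
    rw [h4] at this
    linarith
  have h3 : ‖deriv Ψ x ^ 2 - 1‖ ≤ 3 * (e / ρ) := by
    have h4 : deriv Ψ x ^ 2 - 1 = (deriv Ψ x - 1) * (deriv Ψ x + 1) := by ring
    rw [h4, norm_mul]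
    have h5 : 0 ≤ e / ρ := by positivity
    nlinarith [norm_nonneg (deriv Ψ x - 1), norm_nonneg (deriv Ψ x + 1)]
  have hmv : ‖B (Ψ x) - B x‖ ≤ M * ‖Ψ x - x‖ :=
    (convex_ball x₀ (3 * ρ)).norm_image_sub_le_of_norm_deriv_le (fun z hz => (hB z hz).1)
      (fun z hz => (hB z hz).2.2) hx3 hΨ3
  have hmv2 : ‖B (Ψ x) - B x‖ ≤ M * e := hmv.trans (mul_le_mul_of_nonneg_left (hΨe x hx2) hM)
  have hBx : κ ≤ ‖B x‖ := (hB x hx3).2.1
  have hBn : 0 < ‖B x‖ := lt_of_lt_of_le hκ hBx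
  have hB0 : B x ≠ 0 := norm_pos_iff.1 hBn
  have hq : ‖(B (Ψ x) - B x) / B x‖ ≤ M / κ * e := by
    rw [norm_div, div_le_iff₀ hBn]
    calc ‖B (Ψ x) - B x‖ ≤ M * e := hmv2
      _ = M / κ * e * κ := by field_simp
      _ ≤ M / κ * e * ‖B x‖ := mul_le_mul_of_nonneg_left hBx (by positivity)
  have hq1 : M / κ * e ≤ M * ρ / κ := by
    rw [div_mul_eq_mul_div]
    exact div_le_div_of_nonneg_right (mul_le_mul_of_nonneg_left heρ hM) hκ.le
  have heq : deriv Ψ x ^ 2 * B (Ψ x) / B x - 1 =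
      (deriv Ψ x ^ 2 - 1) * (1 + (B (Ψ x) - B x) / B x) + (B (Ψ x) - B x) / B x := by
    field_simp
    ring
  rw [heq]
  have hn1 : ‖1 + (B (Ψ x) - B x) / B x‖ ≤ 1 + M * ρ / κ := by
    have := norm_add_le (1 : ℂ) ((B (Ψ x) - B x) / B x)
    rw [norm_one] at this
    linarith
  calc ‖(deriv Ψ x ^ 2 - 1) * (1 + (B (Ψ x) - B x) / B x) + (B (Ψ x) - B x) / B x‖
      ≤ ‖deriv Ψ x ^ 2 - 1‖ * ‖1 + (B (Ψ x) - B x) / B x‖ + ‖(B (Ψ x) - B x) / B x‖ := by
        rw [← norm_mul]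
        exact norm_add_le _ _
    _ ≤ 3 * (e / ρ) * (1 + M * ρ / κ) + M / κ * e := by
        apply add_le_add _ hq
        exact mul_le_mul h3 hn1 (norm_nonneg _) (by positivity)
    _ = (3 / ρ * (1 + M * ρ / κ) + M / κ) * e := by ring

end WPT
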